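import Mathlib
import Pool.Agent.H85.AAC.Main

/-!
# The elliptic Ankeny–Artin–Chowla question and solutions of `x³ + y³ = pᵉ z³` prime to `p`

For a prime `p ≥ 5` and `e = 1, 2` let `E : Y² = X³ - 432 p^(2e)`. We show that the implication of
Q1 for the curve `E` is equivalent to one condition on the third multiple of a generator, and to
the existence of a solution of `x³ + y³ = pᵉ z³` with `p ∤ xyz`; and we prove it for all primes in
four families.
-/

set_option autoImplicit false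

namespace Pool.Agent.Results.MP_29f542_nt.PrimitiveSolutions

open WeierstrassCurve.Affine

/-- The curve `E_{p,c} : Y² = X³ - 432 p^c` over the rationals. -/
def curve (p c : ℕ) : WeierstrassCurve ℚ := ⟨0, 0, 0, 0, -432 * (p : ℚ) ^ c⟩

/-- `P` generates the group of rational points. -/
def Generates {W : WeierstrassCurve ℚ} (P : W.toAffine.Point) : Prop :=
  ∀ Q : W.toAffine.Point, ∃ n : ℤ, Q = n • P

/-- `Q` is an affine point and `p` divides the denominator of its `X`-coordinate. -/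
def DenDvd (p : ℕ) {W : WeierstrassCurve ℚ} (Q : W.toAffine.Point) : Prop :=
  ∃ (x y : ℚ) (h : W.toAffine.Nonsingular x y), Q = Point.some x y h ∧ p ∣ x.den

/-- Q1 for the curve `E_{p,c}`: for every generator `P` and every `k > 0`, if `p` divides the
denominator of `k P` then `p` divides `k`. -/
def Q1At (p c : ℕ) : Prop :=
  ∀ P : (curve p c).toAffine.Point, Generates P →
    ∀ k : ℕ, 0 < k → DenDvd p (k • P) → p ∣ k

/-- `x³ + y³ = pᵉ z³` has an integer solution with `p` dividing none of `x, y, z`. -/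
def GoodSolution (p e : ℕ) : Prop :=
  ∃ x y z : ℤ, x ^ 3 + y ^ 3 = (p : ℤ) ^ e * z ^ 3 ∧
    ¬ (p : ℤ) ∣ x ∧ ¬ (p : ℤ) ∣ y ∧ ¬ (p : ℤ) ∣ z

/-- **Main theorem.** Let `p ≥ 5` be prime and `e = 1` or `2`, `E : Y² = X³ - 432 p^(2e)`.
(1) If `x³ + y³ = pᵉ z³` has an integer solution with `p ∤ xyz`, then Q1 holds for `E`.
(2) If `P ≠ O` generates `E(ℚ)`, then Q1 for `E`, the existence of such a solution, and `p` not
dividing the denominator of `3 P` are equivalent.
(3) Q1 holds for `E` whenever `± pᵉ = a³ + 3a²b - 6ab² + b³`, or `4 pᵉ = u⁶ + 3m²` or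
`4 pᵉ = 27u⁶ + m²` with `u ≠ 0`. -/
theorem result (p : ℕ) (hp : p.Prime) (h5 : 5 ≤ p) (e : ℕ) (he : e = 1 ∨ e = 2) :
    (GoodSolution p e → Q1At p (2 * e)) ∧
    (∀ P : (curve p (2 * e)).toAffine.Point, P ≠ 0 → Generates P →
      (Q1At p (2 * e) ↔ GoodSolution p e) ∧
      (Q1At p (2 * e) ↔ ¬ DenDvd p ((3 : ℕ) • P))) ∧
    ((∃ a b : ℤ, a ^ 3 + 3 * a ^ 2 * b - 6 * a * b ^ 2 + b ^ 3 = (p : ℤ) ^ e ∨
        a ^ 3 + 3 * a ^ 2 * b - 6 * a * b ^ 2 + b ^ 3 = -(p : ℤ) ^ e) ∨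
      (∃ u m : ℤ, u ≠ 0 ∧
        (4 * (p : ℤ) ^ e = u ^ 6 + 3 * m ^ 2 ∨ 4 * (p : ℤ) ^ e = 27 * u ^ 6 + m ^ 2)) →
      Q1At p (2 * e)) :=
  Pool.H85.AAC.main p hp h5 e he

end Pool.Agent.Results.MP_29f542_nt.PrimitiveSolutions
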